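import Mathlib

set_option autoImplicit false

namespace RL45

/-- A mean on the bounded real functions on `ι`. -/
structure IsMean {ι : Type*} (M : (ι → ℝ) → ℝ) : Prop where
  add : ∀ (φ ψ : ι → ℝ) (C : ℝ), (∀ i, |φ i| ≤ C) → (∀ i, |ψ i| ≤ C) →
    M (fun i => φ i + ψ i) = M φ + M ψ
  smul : ∀ (φ : ι → ℝ) (C c : ℝ), (∀ i, |φ i| ≤ C) → M (fun i => c * φ i) = c * M φ
  nonneg : ∀ (φ : ι → ℝ) (C : ℝ), (∀ i, |φ i| ≤ C) → (∀ i, 0 ≤ φ i) → 0 ≤ M φ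
  one : M (fun _ => 1) = 1

end RL45
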