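import Pool.Agent.Lib.RL45.Defs

set_option autoImplicit false

open Filter Topology

namespace RL45

variable {X : Type*} [NormedAddCommGroup X] [NormedSpace ℝ X]

/-- Cesàro average in the direction `u`. -/
noncomputable def ces (L : ℕ) (u : X) (φ : X → ℝ) (z : X) : ℝ :=
  (∑ k ∈ Finset.range L, φ (z + (k : ℝ) • u)) / L

/-- Iterated Cesàro average. -/
noncomputable def avg (L : ℕ) : List X → (X → ℝ) → X → ℝ
  | [], φ => φ
  | a :: l, φ => ces L a (avg L l φ)

lemma ces_add (L : ℕ) (u : X) (φ ψ : X → ℝ) (z : X) :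
    ces L u (fun x => φ x + ψ x) z = ces L u φ z + ces L u ψ z := by
  unfold ces
  rw [Finset.sum_add_distrib, add_div]

lemma ces_smul (L : ℕ) (u : X) (c : ℝ) (φ : X → ℝ) (z : X) :
    ces L u (fun x => c * φ x) z = c * ces L u φ z := by
  unfold ces
  rw [← Finset.mul_sum, mul_div_assoc]

lemma ces_shift (L : ℕ) (u y : X) (φ : X → ℝ) (z : X) :
    ces L u (fun x => φ (x + y)) z = ces L u φ (z + y) := by
  unfold ces
  refine congrArg (· / (L : ℝ)) (Finset.sum_congr rfl fun k _ => ?_)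
  rw [add_right_comm]

lemma ces_mono (L : ℕ) (u : X) {φ ψ : X → ℝ} (h : ∀ x, φ x ≤ ψ x) (z : X) :
    ces L u φ z ≤ ces L u ψ z := by
  unfold ces
  exact div_le_div_of_nonneg_right (Finset.sum_le_sum fun k _ => h _) (Nat.cast_nonneg L)

lemma ces_const {L : ℕ} (hL : 0 < L) (u : X) (c : ℝ) (z : X) : ces L u (fun _ => c) z = c := by
  unfold ces
  have : (L : ℝ) ≠ 0 := by exact_mod_cast hL.ne'
  rw [Finset.sum_const, Finset.card_range, nsmul_eq_mul]
  field_simp

lemma avg_add (L : ℕ) (l : List X) (φ ψ : X → ℝ) :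
    avg L l (fun x => φ x + ψ x) = fun z => avg L l φ z + avg L l ψ z := by
  induction l with
  | nil => rfl
  | cons a l ih =>
    funext z
    change ces L a (avg L l _) z = ces L a _ z + ces L a _ z
    rw [ih, ces_add]

lemma avg_smul (L : ℕ) (l : List X) (c : ℝ) (φ : X → ℝ) :
    avg L l (fun x => c * φ x) = fun z => c * avg L l φ z := by
  induction l with
  | nil => rfl
  | cons a l ih =>
    funext z
    change ces L a (avg L l _) z = c * ces L a _ z
    rw [ih, ces_smul]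

lemma avg_shift (L : ℕ) (l : List X) (y : X) (φ : X → ℝ) :
    avg L l (fun x => φ (x + y)) = fun z => avg L l φ (z + y) := by
  induction l with
  | nil => rfl
  | cons a l ih =>
    funext z
    change ces L a (avg L l _) z = ces L a _ (z + y)
    rw [ih, ces_shift]

lemma avg_mono (L : ℕ) (l : List X) {φ ψ : X → ℝ} (h : ∀ x, φ x ≤ ψ x) :
    ∀ z, avg L l φ z ≤ avg L l ψ z := by
  induction l with
  | nil => exact h
  | cons a l ih => exact fun z => ces_mono L a ih z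

lemma avg_const {L : ℕ} (hL : 0 < L) (l : List X) (c : ℝ) :
    avg L l (fun _ => c) = fun _ => c := by
  induction l with
  | nil => rfl
  | cons a l ih =>
    funext z
    change ces L a (avg L l _) z = c
    rw [ih, ces_const hL]

lemma ces_step {L : ℕ} (hL : 0 < L) (u : X) {φ : X → ℝ} {C : ℝ} (hφ : ∀ x, |φ x| ≤ C) (z : X) :
    |ces L u (fun x => φ (x + u)) z - ces L u φ z| ≤ 2 * C / L := by
  have hL' : (0 : ℝ) < L := by exact_mod_cast hL
  have h1 : ces L u (fun x => φ (x + u)) z - ces L u φ z =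
      (φ (z + (L : ℝ) • u) - φ z) / L := by
    unfold ces
    rw [← sub_div, ← Finset.sum_sub_distrib]
    have h2 : ∀ k ∈ Finset.range L, φ (z + (k : ℝ) • u + u) - φ (z + (k : ℝ) • u) =
        (fun m : ℕ => φ (z + (m : ℝ) • u)) (k + 1) - (fun m : ℕ => φ (z + (m : ℝ) • u)) k := by
      intro k _
      simp only
      rw [Nat.cast_add, Nat.cast_one, add_smul, one_smul, add_assoc]
    rw [Finset.sum_congr rfl h2, Finset.sum_range_sub (fun m : ℕ => φ (z + (m : ℝ) • u)) L]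
    simp
  rw [h1, abs_div, abs_of_pos hL']
  refine div_le_div_of_nonneg_right ?_ hL'.le
  calc |φ (z + (L : ℝ) • u) - φ z| ≤ |φ (z + (L : ℝ) • u)| + |φ z| := abs_sub _ _
    _ ≤ 2 * C := by linarith [hφ (z + (L : ℝ) • u), hφ z]

lemma avg_abs {L : ℕ} (hL : 0 < L) (l : List X) {φ : X → ℝ} {C : ℝ} (hφ : ∀ x, |φ x| ≤ C)
    (z : X) : |avg L l φ z| ≤ C := by
  have h1 := avg_mono L l (ψ := fun _ => C) (fun x => (abs_le.1 (hφ x)).2) z
  have h2 := avg_mono L l (φ := fun _ => -C) (fun x => (abs_le.1 (hφ x)).1) z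
  rw [avg_const hL] at h1 h2
  exact abs_le.2 ⟨h2, h1⟩

lemma avg_step {L : ℕ} (hL : 0 < L) (l : List X) {u : X} (hu : u ∈ l) {φ : X → ℝ} {C : ℝ}
    (hφ : ∀ x, |φ x| ≤ C) (z : X) :
    |avg L l (fun x => φ (x + u)) z - avg L l φ z| ≤ 2 * C / L := by
  induction l generalizing z with
  | nil => simp at hu
  | cons a l ih =>
    by_cases hau : u = a
    · subst hau
      change |ces L u (avg L l _) z - ces L u (avg L l φ) z| ≤ _
      rw [avg_shift]
      exact ces_step hL u (avg_abs hL l hφ) z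
    · have hul : u ∈ l := by
        rcases List.mem_cons.1 hu with h | h
        · exact absurd h hau
        · exact h
      change |ces L a (avg L l _) z - ces L a (avg L l φ) z| ≤ _
      have h1 := fun z => ih hul z
      have h2 : ces L a (avg L l fun x => φ (x + u)) z ≤
          ces L a (fun x => avg L l φ x + 2 * C / L) z :=
        ces_mono L a (fun x => by have := (abs_le.1 (h1 x)).2; linarith) z
      have h3 : ces L a (avg L l φ) z ≤
          ces L a (fun x => avg L l (fun x => φ (x + u)) x + 2 * C / L) z :=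
        ces_mono L a (fun x => by have := (abs_le.1 (h1 x)).1; linarith) z
      rw [ces_add, ces_const hL] at h2 h3
      exact abs_le.2 ⟨by linarith, by linarith⟩

lemma avg_steps {L : ℕ} (hL : 0 < L) (l : List X) {u : X} (hu : u ∈ l) {φ : X → ℝ} {C : ℝ}
    (hφ : ∀ x, |φ x| ≤ C) (k : ℕ) (z : X) :
    |avg L l (fun x => φ (x + (k : ℝ) • u)) z - avg L l φ z| ≤ k * (2 * C / L) := by
  induction k with
  | zero => simp
  | succ k ih =>
    have h1 := avg_step hL l hu (φ := fun x => φ (x + (k : ℝ) • u)) (fun x => hφ _) z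
    have h2 : (fun x => φ (x + ((k + 1 : ℕ) : ℝ) • u)) =
        fun x => (fun y => φ (y + (k : ℝ) • u)) (x + u) := by
      funext x
      simp only
      rw [Nat.cast_add, Nat.cast_one, add_smul, one_smul, add_assoc, add_comm u]
    rw [h2]
    have h3 := abs_le.1 h1
    have h4 := abs_le.1 ih
    push_cast
    exact abs_le.2 ⟨by linarith [h3.1, h4.1], by linarith [h3.2, h4.2]⟩

/-- The sample points `1 + i / N`. -/
noncomputable def pt (N i : ℕ) : Set.Icc (1 : ℝ) 3 :=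
  Set.projIcc (1 : ℝ) 3 (by norm_num) (1 + (i : ℝ) / N)

lemma pt_val {N i : ℕ} (hN : 0 < N) (hi : i ≤ 2 * N) : (pt N i : ℝ) = 1 + (i : ℝ) / N := by
  have hN' : (0 : ℝ) < N := by exact_mod_cast hN
  have h1 : (i : ℝ) / N ≤ 2 := by
    rw [div_le_iff₀ hN']; exact_mod_cast hi
  have h2 : 0 ≤ (i : ℝ) / N := by positivity
  unfold pt
  rw [Set.projIcc_of_mem _ (show 1 + (i : ℝ) / N ∈ Set.Icc (1 : ℝ) 3 from
    ⟨by linarith, by linarith⟩)]

/-- The directions. -/
noncomputable def lst (e : ℕ → X) (N : ℕ) : List X :=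
  (List.range N).map fun j => ((1 : ℝ) / N) • e j

/-- The mean of level `N`. -/
noncomputable def E (e : ℕ → X) (N : ℕ) (φ : Set.Icc (1 : ℝ) 3 × X → ℝ) : ℝ :=
  (∑ i ∈ Finset.range (2 * N + 1), avg (N * N) (lst e N) (fun z => φ (pt N i, z)) 0) /
    ((2 * N + 1 : ℕ) : ℝ)

lemma E_add (e : ℕ → X) (N : ℕ) (φ ψ : Set.Icc (1 : ℝ) 3 × X → ℝ) :
    E e N (fun i => φ i + ψ i) = E e N φ + E e N ψ := by
  unfold E
  rw [← add_div, ← Finset.sum_add_distrib]
  refine congrArg (· / _) (Finset.sum_congr rfl fun i _ => ?_)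
  exact congrFun (avg_add _ _ (fun z => φ (pt N i, z)) (fun z => ψ (pt N i, z))) 0

lemma E_smul (e : ℕ → X) (N : ℕ) (c : ℝ) (φ : Set.Icc (1 : ℝ) 3 × X → ℝ) :
    E e N (fun i => c * φ i) = c * E e N φ := by
  unfold E
  rw [← mul_div_assoc, Finset.mul_sum]
  refine congrArg (· / _) (Finset.sum_congr rfl fun i _ => ?_)
  exact congrFun (avg_smul _ _ c (fun z => φ (pt N i, z))) 0

lemma E_one (e : ℕ → X) {N : ℕ} (hN : 0 < N) : E e N (fun _ => 1) = 1 := by
  unfold E
  rw [Finset.sum_congr rfl fun i _ => congrFun (avg_const (Nat.mul_pos hN hN) (lst e N) 1) 0]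
  rw [Finset.sum_const, Finset.card_range, nsmul_eq_mul, mul_one]
  exact div_self (by positivity)

lemma E_nonneg (e : ℕ → X) {N : ℕ} (hN : 0 < N) {φ : Set.Icc (1 : ℝ) 3 × X → ℝ}
    (hφ : ∀ i, 0 ≤ φ i) : 0 ≤ E e N φ := by
  unfold E
  refine div_nonneg (Finset.sum_nonneg fun i _ => ?_) (Nat.cast_nonneg _)
  have := avg_mono (N * N) (lst e N) (φ := fun _ => 0) (ψ := fun z => φ (pt N i, z))
    (fun z => hφ _) 0
  rwa [avg_const (Nat.mul_pos hN hN)] at this

lemma E_abs (e : ℕ → X) {N : ℕ} (hN : 0 < N) {φ : Set.Icc (1 : ℝ) 3 × X → ℝ} {C : ℝ}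
    (hφ : ∀ i, |φ i| ≤ C) : |E e N φ| ≤ C := by
  have h1 : E e N (fun i => C * 1 + (-1) * φ i) = C + (-1) * E e N φ := by
    rw [E_add e N (fun _ => C * 1) (fun i => (-1) * φ i), E_smul e N C (fun _ => 1),
      E_smul e N (-1) φ, E_one e hN, mul_one]
  have h2 : E e N (fun i => C * 1 + φ i) = C + E e N φ := by
    rw [E_add e N (fun _ => C * 1) φ, E_smul e N C (fun _ => 1), E_one e hN, mul_one]
  have h3 := E_nonneg e hN (φ := fun i => C * 1 + (-1) * φ i)
    (fun i => by have := (abs_le.1 (hφ i)).2; linarith)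
  have h4 := E_nonneg e hN (φ := fun i => C * 1 + φ i)
    (fun i => by have := (abs_le.1 (hφ i)).1; linarith)
  rw [h1] at h3
  rw [h2] at h4
  exact abs_le.2 ⟨by linarith, by linarith⟩

lemma E_shift (e : ℕ → X) {N : ℕ} (hN : 0 < N) {φ : Set.Icc (1 : ℝ) 3 × X → ℝ} {C : ℝ}
    (hφ : ∀ i, |φ i| ≤ C) {j : ℕ} (hj : j < N) :
    |E e N (fun i => φ (i.1, i.2 + (i.1 : ℝ) • e j)) - E e N φ| ≤ 6 * C / N := by
  have hN' : (0 : ℝ) < N := by exact_mod_cast hN
  have hC : 0 ≤ C := (abs_nonneg _).trans (hφ (pt N 0, 0))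
  have hterm : ∀ i ∈ Finset.range (2 * N + 1),
      |avg (N * N) (lst e N) (fun z => φ (pt N i, z + (pt N i : ℝ) • e j)) 0 -
        avg (N * N) (lst e N) (fun z => φ (pt N i, z)) 0| ≤ 6 * C / N := by
    intro i hi
    have hi' : i ≤ 2 * N := by have := Finset.mem_range.1 hi; omega
    have hmem : ((1 : ℝ) / N) • e j ∈ lst e N :=
      List.mem_map.2 ⟨j, List.mem_range.2 hj, rfl⟩
    have h1 := avg_steps (Nat.mul_pos hN hN) (lst e N) hmem (φ := fun z => φ (pt N i, z))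
      (fun z => hφ _) (N + i) 0
    have h2 : ∀ z : X, z + ((N + i : ℕ) : ℝ) • ((1 : ℝ) / N) • e j = z + (pt N i : ℝ) • e j := by
      intro z
      rw [pt_val hN hi', smul_smul]
      congr 2
      push_cast
      field_simp
    simp only [h2] at h1
    refine h1.trans ?_
    have h3 : ((N + i : ℕ) : ℝ) ≤ 3 * N := by
      have : N + i ≤ 3 * N := by omega
      exact_mod_cast this
    have h4 : (0 : ℝ) ≤ 2 * C / ((N * N : ℕ) : ℝ) := by positivity
    calc ((N + i : ℕ) : ℝ) * (2 * C / ((N * N : ℕ) : ℝ)) ≤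
          3 * N * (2 * C / ((N * N : ℕ) : ℝ)) := mul_le_mul_of_nonneg_right h3 h4
      _ = 6 * C / N := by push_cast; field_simp; ring
  unfold E
  rw [← sub_div, ← Finset.sum_sub_distrib, abs_div,
    abs_of_pos (show (0 : ℝ) < ((2 * N + 1 : ℕ) : ℝ) by positivity),
    div_le_iff₀ (show (0 : ℝ) < ((2 * N + 1 : ℕ) : ℝ) by positivity)]
  refine (Finset.abs_sum_le_sum_abs _ _).trans ((Finset.sum_le_sum hterm).trans ?_)
  rw [Finset.sum_const, Finset.card_range, nsmul_eq_mul, mul_comm]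

lemma E_pair (e : ℕ → X) {N : ℕ} (hN : 0 < N) {φ : Set.Icc (1 : ℝ) 3 × X → ℝ} {c r δ : ℝ}
    (hφ : ∀ i, 0 ≤ φ i) (hr : 0 < r) (hr1 : r ≤ 1) (hδ : 1 / δ ≤ N) (hδ0 : 0 < δ) (hc : 0 ≤ c)
    (h : ∀ (z : X) (s s' : Set.Icc (1 : ℝ) 3), r ≤ (s' : ℝ) - s → (s' : ℝ) - s ≤ r + δ →
      c ≤ φ (s, z) + φ (s', z)) : c / 4 ≤ E e N φ := by
  have hN' : (0 : ℝ) < N := by exact_mod_cast hN
  let a : ℕ → ℝ := fun i => avg (N * N) (lst e N) (fun z => φ (pt N i, z)) 0
  have ha : ∀ i, 0 ≤ a i := by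
    intro i
    have := avg_mono (N * N) (lst e N) (φ := fun _ => 0) (ψ := fun z => φ (pt N i, z))
      (fun z => hφ _) 0
    rwa [avg_const (Nat.mul_pos hN hN)] at this
  let k := ⌈r * N⌉₊
  have hk1 : r * N ≤ k := Nat.le_ceil _
  have hk2 : (k : ℝ) < r * N + 1 := Nat.ceil_lt_add_one (by positivity)
  have hkN : k ≤ N := by
    refine Nat.ceil_le.2 ?_
    calc r * N ≤ 1 * N := mul_le_mul_of_nonneg_right hr1 hN'.le
      _ = N := one_mul _
  have hpair : ∀ i ∈ Finset.range (N + 1), c ≤ a i + a (i + k) := by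
    intro i hi
    have hi' : i ≤ N := by have := Finset.mem_range.1 hi; omega
    have e1 := pt_val hN (show i ≤ 2 * N by omega)
    have e2 := pt_val hN (show i + k ≤ 2 * N by omega)
    have e3 : (pt N (i + k) : ℝ) - pt N i = k / N := by
      rw [e1, e2]; push_cast; ring
    have h1 : r ≤ (pt N (i + k) : ℝ) - pt N i := by
      rw [e3, le_div_iff₀ hN']; exact hk1
    have h2 : (pt N (i + k) : ℝ) - pt N i ≤ r + δ := by
      rw [e3, div_le_iff₀ hN']
      have : 1 ≤ δ * N := by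
        rw [div_le_iff₀ hδ0] at hδ; linarith
      nlinarith
    have h3 := avg_mono (N * N) (lst e N) (φ := fun _ => c)
      (ψ := fun z => φ (pt N i, z) + φ (pt N (i + k), z)) (fun z => h z _ _ h1 h2) 0
    rw [avg_const (Nat.mul_pos hN hN)] at h3
    have h4 := congrFun (avg_add (N * N) (lst e N) (fun z => φ (pt N i, z))
      (fun z => φ (pt N (i + k), z))) 0
    rw [h4] at h3
    exact h3
  have hsum := Finset.sum_le_sum hpair
  rw [Finset.sum_const, Finset.card_range, nsmul_eq_mul, Finset.sum_add_distrib] at hsum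
  have hS1 : ∑ i ∈ Finset.range (N + 1), a i ≤ ∑ i ∈ Finset.range (2 * N + 1), a i :=
    Finset.sum_le_sum_of_subset_of_nonneg (Finset.range_mono (by omega)) fun i _ _ => ha i
  have hS2 : ∑ i ∈ Finset.range (N + 1), a (i + k) ≤ ∑ i ∈ Finset.range (2 * N + 1), a i := by
    rw [← Finset.sum_image (f := a) (g := fun i => i + k) (fun x _ y _ hxy => by
      simpa using hxy)]
    refine Finset.sum_le_sum_of_subset_of_nonneg ?_ fun i _ _ => ha i
    intro m hm
    obtain ⟨i, hi, rfl⟩ := Finset.mem_image.1 hm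
    rw [Finset.mem_range] at hi ⊢
    omega
  change c / 4 ≤ (∑ i ∈ Finset.range (2 * N + 1), a i) / ((2 * N + 1 : ℕ) : ℝ)
  rw [le_div_iff₀ (by positivity)]
  push_cast at hsum ⊢
  nlinarith

theorem exists_mean (e : ℕ → X) :
    ∃ M : ((Set.Icc (1 : ℝ) 3 × X) → ℝ) → ℝ, IsMean M ∧
      (∀ (φ : Set.Icc (1 : ℝ) 3 × X → ℝ) (C : ℝ), (∀ i, |φ i| ≤ C) → ∀ j : ℕ,
        M (fun i => φ (i.1, i.2 + (i.1 : ℝ) • e j)) = M φ) ∧
      (∀ (φ : Set.Icc (1 : ℝ) 3 × X → ℝ) (C c r δ : ℝ), (∀ i, |φ i| ≤ C) → (∀ i, 0 ≤ φ i) →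
        0 < r → r ≤ 1 → 0 < δ → 0 ≤ c →
        (∀ (z : X) (s s' : Set.Icc (1 : ℝ) 3), r ≤ (s' : ℝ) - s → (s' : ℝ) - s ≤ r + δ →
          c ≤ φ (s, z) + φ (s', z)) → c / 4 ≤ M φ) := by
  let U : Ultrafilter ℕ := hyperfilter ℕ
  have hU : (U : Filter ℕ) ≤ atTop := Nat.hyperfilter_le_atTop
  have hlim : ∀ (φ : Set.Icc (1 : ℝ) 3 × X → ℝ) (C : ℝ), (∀ i, |φ i| ≤ C) →
      Tendsto (fun n : ℕ => E e (n + 1) φ) U (𝓝 (limUnder (U : Filter ℕ) fun n : ℕ =>
        E e (n + 1) φ)) := by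
    intro φ C hφ
    refine tendsto_nhds_limUnder ?_
    obtain ⟨x, -, hx⟩ := (isCompact_Icc (a := -C) (b := C)).ultrafilter_le_nhds
      (U.map fun n : ℕ => E e (n + 1) φ) (by
        rw [le_principal_iff]
        exact Ultrafilter.mem_map.2 (Filter.univ_mem' fun n =>
          abs_le.1 (E_abs e (Nat.succ_pos n) hφ)))
    exact ⟨x, hx⟩
  refine ⟨fun φ => limUnder (U : Filter ℕ) fun n : ℕ => E e (n + 1) φ, ⟨?_, ?_, ?_, ?_⟩, ?_, ?_⟩
  · intro φ ψ C hφ hψ
    refine Tendsto.limUnder_eq ?_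
    simp only [E_add]
    exact (hlim φ C hφ).add (hlim ψ C hψ)
  · intro φ C c hφ
    refine Tendsto.limUnder_eq ?_
    simp only [E_smul]
    exact (hlim φ C hφ).const_mul c
  · intro φ C hφ h0
    exact ge_of_tendsto (hlim φ C hφ) (Eventually.of_forall fun n => E_nonneg e (Nat.succ_pos n) h0)
  · refine Tendsto.limUnder_eq ?_
    simp only [E_one e (Nat.succ_pos _)]
    exact tendsto_const_nhds
  · intro φ C hφ j
    refine Tendsto.limUnder_eq ?_
    have h1 : Tendsto (fun n : ℕ => E e (n + 1) (fun i => φ (i.1, i.2 + (i.1 : ℝ) • e j)) -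
        E e (n + 1) φ) U (𝓝 0) := by
      refine Tendsto.mono_left ?_ hU
      refine squeeze_zero_norm' (a := fun n : ℕ => 6 * C / ((n + 1 : ℕ) : ℝ)) ?_ ?_
      · filter_upwards [eventually_ge_atTop j] with n hn
        exact E_shift e (Nat.succ_pos n) hφ (Nat.lt_succ_of_le hn)
      · exact (tendsto_const_div_atTop_nhds_zero_nat (6 * C)).comp (tendsto_add_atTop_nat 1)
    have h2 := h1.add (hlim φ C hφ)
    simpa using h2
  · intro φ C c r δ hφ h0 hr hr1 hδ hc h
    refine ge_of_tendsto (hlim φ C hφ) ?_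
    obtain ⟨n₀, hn₀⟩ := exists_nat_ge (1 / δ)
    refine hU ?_
    filter_upwards [eventually_ge_atTop n₀] with n hn
    refine E_pair e (Nat.succ_pos n) h0 hr hr1 ?_ hδ hc h
    refine hn₀.trans ?_
    exact_mod_cast (by omega : n₀ ≤ n + 1)

end RL45
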