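import Pool.Agent.Lib.RL45.Defs

set_option autoImplicit false

open MeasureTheory Filter Topology
open scoped ENNReal unitInterval

namespace RL45

lemma toReal_pos' {p : ℝ≥0∞} [h : Fact (1 ≤ p)] (hp : p ≠ ∞) : 0 < p.toReal :=
  ENNReal.toReal_pos (by have := h.out; intro h0; rw [h0] at this; simp at this) hp

lemma norm_rpow {Ω : Type*} [MeasurableSpace Ω] {μ : Measure Ω} {p : ℝ≥0∞}
    [hF : Fact (1 ≤ p)] (hp : p ≠ ∞) (h : Lp ℝ p μ) :
    ‖h‖ ^ p.toReal = ∫ ω, |h ω| ^ p.toReal ∂μ := by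
  have hp0 := toReal_pos' hp
  have hpz : p ≠ 0 := by
    intro h0; rw [h0] at hp0; simp at hp0
  rw [Lp.norm_def, MemLp.eLpNorm_eq_integral_rpow_norm hpz hp (Lp.memLp h)]
  have hn : 0 ≤ ∫ ω, ‖h ω‖ ^ p.toReal ∂μ := integral_nonneg fun ω => by positivity
  rw [ENNReal.toReal_ofReal (by positivity), ← Real.rpow_mul hn, inv_mul_cancel₀ hp0.ne',
    Real.rpow_one]
  rfl

lemma norm_toLp_rpow {Ω : Type*} [MeasurableSpace Ω] {μ : Measure Ω} {p : ℝ≥0∞}
    [hF : Fact (1 ≤ p)] (hp : p ≠ ∞) (a b : Ω → ℝ) (ha : MemLp a p μ) (hb : MemLp b p μ) :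
    ‖ha.toLp a - hb.toLp b‖ ^ p.toReal = ∫ ω, |a ω - b ω| ^ p.toReal ∂μ := by
  rw [norm_rpow hp]
  refine integral_congr_ae ?_
  filter_upwards [Lp.coeFn_sub (ha.toLp a) (hb.toLp b), ha.coeFn_toLp, hb.coeFn_toLp] with ω h1 h2 h3
  rw [h1, Pi.sub_apply, h2, h3]

lemma norm_sub_rpow {Ω : Type*} [MeasurableSpace Ω] {μ : Measure Ω} {p : ℝ≥0∞}
    [hF : Fact (1 ≤ p)] (hp : p ≠ ∞) (a b : Lp ℝ p μ) :
    ‖a - b‖ ^ p.toReal = ∫ ω, |a ω - b ω| ^ p.toReal ∂μ := by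
  rw [norm_rpow hp]
  refine integral_congr_ae ?_
  filter_upwards [Lp.coeFn_sub a b] with ω h1
  rw [h1, Pi.sub_apply]

lemma enorm_rpow {Ω : Type*} [MeasurableSpace Ω] {μ : Measure Ω} {p : ℝ≥0∞}
    [hF : Fact (1 ≤ p)] (hp : p ≠ ∞) (h : Lp ℝ p μ) :
    ∫⁻ ω, ENNReal.ofReal (|h ω| ^ p.toReal) ∂μ = ENNReal.ofReal (‖h‖ ^ p.toReal) := by
  have hp0 := toReal_pos' hp
  have hpz : p ≠ 0 := by
    intro h0; rw [h0] at hp0; simp at hp0
  rw [norm_rpow hp, ofReal_integral_eq_lintegral_ofReal]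
  · have := (Lp.memLp h).integrable_norm_rpow hpz hp
    simpa [Real.norm_eq_abs] using this
  · exact Eventually.of_forall fun ω => by positivity

/-- The one index step: common normalisation of countably many functions of `L_p`. -/
lemma one_index {Ω : Type*} [MeasurableSpace Ω] {μ : Measure Ω} {p : ℝ≥0∞}
    [hF : Fact (1 ≤ p)] (hp : p ≠ ∞) (G : ℕ → Lp ℝ p μ) (w : ℕ → ℝ) (hw : ∀ x, 0 < w x)
    (hsum : ∑' x, ENNReal.ofReal (w x * ‖G x‖ ^ p.toReal) ≤ 1) :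
    ∃ (v : Ω → ℕ → Set.Icc (-1 : ℝ) 1) (Q : Ω → ℝ), Measurable v ∧ Integrable Q μ ∧
      (∀ ω, 0 ≤ Q ω) ∧ ∫ ω, Q ω ∂μ ≤ 1 ∧
      ∀ x, ∀ᵐ ω ∂μ, G x ω = (w x) ^ (-(1 / p.toReal)) * Q ω ^ (1 / p.toReal) * (v ω x : ℝ) := by
  have hp0 := toReal_pos' hp
  set q := p.toReal with hq
  have hGm : ∀ x, Measurable (G x : Ω → ℝ) := fun x => (Lp.stronglyMeasurable (G x)).measurable
  let T : ℕ → Ω → ℝ≥0∞ := fun x ω => ENNReal.ofReal (w x * |G x ω| ^ q)
  have hTm : ∀ x, Measurable (T x) := by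
    intro x
    have := hGm x
    refine ENNReal.measurable_ofReal.comp (Measurable.const_mul ?_ _)
    exact (this.abs).pow_const q
  let Qe : Ω → ℝ≥0∞ := fun ω => ∑' x, T x ω
  have hQm : Measurable Qe := Measurable.tsum hTm
  have hQint : ∫⁻ ω, Qe ω ∂μ ≤ 1 := by
    rw [lintegral_tsum fun x => (hTm x).aemeasurable]
    refine le_trans (le_of_eq (tsum_congr fun x => ?_)) hsum
    have h1 : ∀ ω, T x ω = ENNReal.ofReal (w x) * ENNReal.ofReal (|G x ω| ^ q) := fun ω => by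
      simp only [T]
      rw [ENNReal.ofReal_mul (hw x).le]
    rw [lintegral_congr h1, lintegral_const_mul' _ _ ENNReal.ofReal_ne_top, enorm_rpow hp,
      ← ENNReal.ofReal_mul (hw x).le]
  have hQfin : ∀ᵐ ω ∂μ, Qe ω < ∞ :=
    ae_lt_top hQm (ne_of_lt (lt_of_le_of_lt hQint ENNReal.one_lt_top))
  let Q : Ω → ℝ := fun ω => (Qe ω).toReal
  have hQrm : Measurable Q := hQm.ennreal_toReal
  refine ⟨fun ω x => Set.projIcc (-1 : ℝ) 1 (by norm_num)
    ((w x) ^ (1 / q) * G x ω / Q ω ^ (1 / q)), Q, ?_, ?_, fun ω => ENNReal.toReal_nonneg, ?_, ?_⟩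
  · refine measurable_pi_lambda _ fun x => ?_
    refine (continuous_projIcc).measurable.comp ?_
    exact ((hGm x).const_mul _).div (hQrm.pow_const _)
  · exact integrable_toReal_of_lintegral_ne_top hQm.aemeasurable
      (ne_of_lt (lt_of_le_of_lt hQint ENNReal.one_lt_top))
  · rw [integral_toReal hQm.aemeasurable hQfin]
    exact ENNReal.toReal_le_of_le_ofReal zero_le_one (by simpa using hQint)
  · intro x
    filter_upwards [hQfin] with ω hω
    have h1 : w x * |G x ω| ^ q ≤ Q ω := by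
      have h2 : T x ω ≤ Qe ω := ENNReal.le_tsum x
      have h3 := (ENNReal.ofReal_le_iff_le_toReal hω.ne).1 h2
      exact h3
    have hwq : 0 < (w x) ^ (1 / q) := Real.rpow_pos_of_pos (hw x) _
    have h4 : (w x) ^ (1 / q) * |G x ω| ≤ Q ω ^ (1 / q) := by
      have h5 := Real.rpow_le_rpow (mul_nonneg (hw x).le (by positivity)) h1
        (by positivity : 0 ≤ 1 / q)
      rwa [Real.mul_rpow (hw x).le (by positivity), ← Real.rpow_mul (abs_nonneg _),
        mul_one_div_cancel hp0.ne', Real.rpow_one] at h5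
    rw [Real.rpow_neg (hw x).le]
    by_cases hz : Q ω ^ (1 / q) = 0
    · have h6 : |G x ω| ≤ 0 := by
        rw [hz] at h4
        by_contra h7
        push Not at h7
        linarith [mul_pos hwq h7]
      have h8 : G x ω = 0 := abs_nonpos_iff.1 h6
      rw [h8, hz]; simp
    · have hpos : 0 < Q ω ^ (1 / q) :=
        lt_of_le_of_ne (Real.rpow_nonneg ENNReal.toReal_nonneg _) (Ne.symm hz)
      have h9 : (w x) ^ (1 / q) * G x ω / Q ω ^ (1 / q) ∈ Set.Icc (-1 : ℝ) 1 := by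
        have h10 : |(w x) ^ (1 / q) * G x ω / Q ω ^ (1 / q)| ≤ 1 := by
          rw [abs_div, abs_mul, abs_of_pos hwq, abs_of_pos hpos, div_le_one hpos]
          exact h4
        exact abs_le.1 h10
      rw [Set.projIcc_of_mem _ h9]
      field_simp

end RL45
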