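import Pool.Agent.Lib.RL45.Norm

set_option autoImplicit false

open MeasureTheory Filter Topology
open scoped ENNReal unitInterval CompactlySupported

namespace RL45

/-- The compact cube. -/
abbrev Cube : Type := ℕ → Set.Icc (-1 : ℝ) 1

/-- The centre of the cube. -/
noncomputable def ctr : Cube := fun _ => ⟨0, by norm_num⟩

section one

variable {Ω : Type*} [MeasurableSpace Ω] {μ : Measure Ω} {v : Ω → Cube} {Q : Ω → ℝ}

lemma intble (hv : Measurable v) (hQ : Integrable Q μ) {φ : Cube → ℝ} (hφ : Continuous φ) :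
    Integrable (fun ω => φ (v ω) * Q ω) μ := by
  obtain ⟨C, hC⟩ := (isCompact_range hφ).isBounded.exists_norm_le
  refine hQ.bdd_mul (c := C) ?_ ?_
  · exact (hφ.measurable.comp hv).aestronglyMeasurable
  · exact Eventually.of_forall fun ω => hC _ ⟨v ω, rfl⟩

/-- The functional of one index. -/
noncomputable def lam (μ : Measure Ω) (v : Ω → Cube) (Q : Ω → ℝ) (φ : Cube → ℝ) : ℝ :=
  ∫ ω, φ (v ω) * Q ω ∂μ + (1 - ∫ ω, Q ω ∂μ) * φ ctr

lemma lam_add (hv : Measurable v) (hQ : Integrable Q μ) {φ ψ : Cube → ℝ} (hφ : Continuous φ)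
    (hψ : Continuous ψ) : lam μ v Q (fun k => φ k + ψ k) = lam μ v Q φ + lam μ v Q ψ := by
  unfold lam
  have : (fun ω => (φ (v ω) + ψ (v ω)) * Q ω) = fun ω => φ (v ω) * Q ω + ψ (v ω) * Q ω := by
    funext ω; ring
  rw [this, integral_add (intble hv hQ hφ) (intble hv hQ hψ)]
  ring

lemma lam_smul (φ : Cube → ℝ) (c : ℝ) : lam μ v Q (fun k => c * φ k) = c * lam μ v Q φ := by
  unfold lam
  have : (fun ω => (c * φ (v ω)) * Q ω) = fun ω => c * (φ (v ω) * Q ω) := by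
    funext ω; ring
  rw [this, integral_const_mul]
  ring

lemma lam_nonneg (hQ0 : ∀ ω, 0 ≤ Q ω) (hQ1 : ∫ ω, Q ω ∂μ ≤ 1) {φ : Cube → ℝ}
    (hφ : ∀ k, 0 ≤ φ k) : 0 ≤ lam μ v Q φ := by
  unfold lam
  have h1 : 0 ≤ ∫ ω, φ (v ω) * Q ω ∂μ := integral_nonneg fun ω => mul_nonneg (hφ _) (hQ0 _)
  have h2 : 0 ≤ (1 - ∫ ω, Q ω ∂μ) * φ ctr := mul_nonneg (by linarith) (hφ _)
  linarith

lemma lam_one : lam μ v Q (fun _ => 1) = 1 := by
  unfold lam; simp

lemma lam_abs (hv : Measurable v) (hQ : Integrable Q μ) (hQ0 : ∀ ω, 0 ≤ Q ω)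
    (hQ1 : ∫ ω, Q ω ∂μ ≤ 1) {φ : Cube → ℝ} (hφ : Continuous φ) {C : ℝ} (hC : ∀ k, |φ k| ≤ C) :
    |lam μ v Q φ| ≤ C := by
  have hc : lam μ v Q (fun _ => C) = C := by
    have := lam_smul (μ := μ) (v := v) (Q := Q) (fun _ => (1 : ℝ)) C
    rw [lam_one] at this
    simpa using this
  have e1 : 0 ≤ lam μ v Q (fun k => (fun _ => C) k + φ k) :=
    lam_nonneg hQ0 hQ1 fun k => by have := (abs_le.1 (hC k)).1; simp only; linarith
  have e2 : 0 ≤ lam μ v Q (fun k => (fun _ => C) k + (fun k => (-1) * φ k) k) :=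
    lam_nonneg hQ0 hQ1 fun k => by have := (abs_le.1 (hC k)).2; simp only; linarith
  have a1 := lam_add (φ := fun _ => C) (ψ := φ) hv hQ continuous_const hφ
  have a2 := lam_add (φ := fun _ => C) (ψ := fun k => (-1) * φ k) hv hQ continuous_const
    (continuous_const.mul hφ)
  have a3 := lam_smul (μ := μ) (v := v) (Q := Q) φ (-1)
  rw [hc] at a1 a2
  rw [a3] at a2
  rw [a1] at e1
  rw [a2] at e2
  exact abs_le.2 ⟨by linarith, by linarith⟩

end one

theorem exists_repr {ι Ω : Type*} [MeasurableSpace Ω] {μ : Measure Ω} {p : ℝ≥0∞}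
    [Fact (1 ≤ p)] (hp : p ≠ ∞) (F : ι → ℕ → Lp ℝ p μ) (B : ℕ → ℝ)
    (hB : ∀ i x, ‖F i x‖ ≤ B x) (M : (ι → ℝ) → ℝ) (hM : IsMean M) :
    ∃ g : ℕ → Lp ℝ p (volume : Measure I), ∀ x y,
      ‖g x - g y‖ ^ p.toReal = M (fun i => ‖F i x - F i y‖ ^ p.toReal) := by
  classical
  have hp0 := toReal_pos' hp
  set q := p.toReal with hq
  -- weights
  let w : ℕ → ℝ := fun x => (1 / 2 / 2 ^ x) / (1 + |B x| ^ q)
  have hw : ∀ x, 0 < w x := fun x => by positivity
  have hsum : ∀ i, ∑' x, ENNReal.ofReal (w x * ‖F i x‖ ^ q) ≤ 1 := by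
    intro i
    have h1 : ∀ x, ENNReal.ofReal (w x * ‖F i x‖ ^ q) ≤ ENNReal.ofReal (1 / 2 / 2 ^ x) := by
      intro x
      refine ENNReal.ofReal_le_ofReal ?_
      have h2 : ‖F i x‖ ^ q ≤ 1 + |B x| ^ q := by
        have h3 : ‖F i x‖ ^ q ≤ |B x| ^ q :=
          Real.rpow_le_rpow (norm_nonneg _) ((hB i x).trans (le_abs_self _)) hp0.le
        linarith
      have h4 : 0 < 1 + |B x| ^ q := by positivity
      calc w x * ‖F i x‖ ^ q ≤ w x * (1 + |B x| ^ q) := mul_le_mul_of_nonneg_left h2 (hw x).le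
        _ = 1 / 2 / 2 ^ x := by simp only [w]; field_simp
    calc ∑' x, ENNReal.ofReal (w x * ‖F i x‖ ^ q) ≤ ∑' x, ENNReal.ofReal (1 / 2 / 2 ^ x) :=
          ENNReal.tsum_le_tsum h1
      _ = ENNReal.ofReal (∑' x : ℕ, (1 : ℝ) / 2 / 2 ^ x) :=
          (ENNReal.ofReal_tsum_of_nonneg (fun x => by positivity) (summable_geometric_two' 1)).symm
      _ = 1 := by rw [tsum_geometric_two']; simp
  choose v Q hv hQ hQ0 hQ1 hrep using fun i => one_index hp (F i) w hw (hsum i)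
  -- the functional
  have hbdd : ∀ φ : C(Cube, ℝ), ∃ C, ∀ i, |lam μ (v i) (Q i) φ| ≤ C := by
    intro φ
    obtain ⟨C, hC⟩ := (isCompact_range φ.continuous).isBounded.exists_norm_le
    exact ⟨C, fun i => lam_abs (hv i) (hQ i) (hQ0 i) (hQ1 i) φ.continuous fun k => hC _ ⟨k, rfl⟩⟩
  let L : C(Cube, ℝ) → ℝ := fun φ => M fun i => lam μ (v i) (Q i) φ
  have hLadd : ∀ φ ψ : C(Cube, ℝ), L (φ + ψ) = L φ + L ψ := by
    intro φ ψ
    obtain ⟨C, hC⟩ := hbdd φ
    obtain ⟨C', hC'⟩ := hbdd ψ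
    have := hM.add (fun i => lam μ (v i) (Q i) φ) (fun i => lam μ (v i) (Q i) ψ) (max C C')
      (fun i => (hC i).trans (le_max_left _ _)) (fun i => (hC' i).trans (le_max_right _ _))
    rw [← this]
    refine congrArg M (funext fun i => ?_)
    exact lam_add (hv i) (hQ i) φ.continuous ψ.continuous
  have hLsmul : ∀ (c : ℝ) (φ : C(Cube, ℝ)), L (c • φ) = c * L φ := by
    intro c φ
    obtain ⟨C, hC⟩ := hbdd φ
    rw [← hM.smul (fun i => lam μ (v i) (Q i) φ) C c hC]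
    refine congrArg M (funext fun i => ?_)
    exact lam_smul _ c
  have hLnn : ∀ φ : C(Cube, ℝ), (∀ k, 0 ≤ φ k) → 0 ≤ L φ := by
    intro φ hφ
    obtain ⟨C, hC⟩ := hbdd φ
    exact hM.nonneg _ C hC fun i => lam_nonneg (hQ0 i) (hQ1 i) hφ
  have hLone : L 1 = 1 := (congrArg M (funext fun i => lam_one)).trans hM.one
  let Λ₀ : C_c(Cube, ℝ) →ₗ[ℝ] ℝ :=
    { toFun := fun φ => L φ.toContinuousMap
      map_add' := fun φ ψ => hLadd _ _
      map_smul' := fun c φ => hLsmul c _ }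
  let Λ : C_c(Cube, ℝ) →ₚ[ℝ] ℝ := PositiveLinearMap.mk₀ Λ₀ (fun φ hφ => hLnn _ fun k => hφ k)
  let P : Measure Cube := RealRMK.rieszMeasure Λ
  have hP : ∀ φ : C(Cube, ℝ), ∫ k, φ k ∂P = L φ := by
    intro φ
    have := RealRMK.integral_rieszMeasure Λ (CompactlySupportedContinuousMap.continuousMapEquiv φ)
    exact this
  have hP1 : P Set.univ = 1 := by
    have h1 := hP 1
    rw [hLone] at h1
    simp only [ContinuousMap.one_apply, integral_const, smul_eq_mul, mul_one] at h1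
    rw [measureReal_def] at h1
    exact (ENNReal.toReal_eq_one_iff _).1 h1
  have : IsProbabilityMeasure P := ⟨hP1⟩
  have : Nonempty Cube := ⟨ctr⟩
  obtain ⟨τ, hτ, hτP⟩ := Measure.exists_measurable_map_eq P
  let a : ℕ → I → ℝ := fun x t => (w x) ^ (-(1 / q)) * (τ t x : ℝ)
  have ha : ∀ x, MemLp (a x) p (volume : Measure I) := by
    intro x
    refine MemLp.of_bound ?_ ((w x) ^ (-(1 / q))) (Eventually.of_forall fun t => ?_)
    · refine Measurable.aestronglyMeasurable ?_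
      refine Measurable.const_mul ?_ _
      exact measurable_subtype_coe.comp ((measurable_pi_apply x).comp hτ)
    · have h0 : 0 < (w x) ^ (-(1 / q)) := Real.rpow_pos_of_pos (hw x) _
      have h1 : |(τ t x : ℝ)| ≤ 1 := abs_le.2 (τ t x).2
      rw [Real.norm_eq_abs, abs_mul, abs_of_pos h0]
      calc _ ≤ (w x) ^ (-(1 / q)) * 1 := mul_le_mul_of_nonneg_left h1 h0.le
        _ = _ := mul_one _
  refine ⟨fun x => (ha x).toLp (a x), fun x y => ?_⟩
  rw [norm_toLp_rpow hp]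
  -- the kernel
  let φ : C(Cube, ℝ) :=
    ⟨fun k => |(w x) ^ (-(1 / q)) * (k x : ℝ) - (w y) ^ (-(1 / q)) * (k y : ℝ)| ^ q, by
      refine Continuous.rpow_const ?_ fun k => Or.inr hp0.le
      fun_prop⟩
  have h1 : ∫ t, |a x t - a y t| ^ q = ∫ k, φ k ∂P := by
    rw [← hτP, integral_map hτ.aemeasurable φ.continuous.measurable.aestronglyMeasurable]
    rfl
  rw [h1, hP φ]
  refine congrArg M (funext fun i => ?_)
  rw [norm_sub_rpow hp]
  unfold lam
  have h2 : φ ctr = 0 := by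
    change |(w x) ^ (-(1 / q)) * (0 : ℝ) - (w y) ^ (-(1 / q)) * (0 : ℝ)| ^ q = 0
    rw [mul_zero, mul_zero, sub_zero, abs_zero, Real.zero_rpow hp0.ne']
  rw [h2, mul_zero, add_zero]
  refine integral_congr_ae ?_
  filter_upwards [hrep i x, hrep i y] with ω hx hy
  rw [hx, hy]
  have hQq : 0 ≤ Q i ω ^ (1 / q) := Real.rpow_nonneg (hQ0 i ω) _
  have h3 : (w x) ^ (-(1 / q)) * Q i ω ^ (1 / q) * (v i ω x : ℝ) -
      (w y) ^ (-(1 / q)) * Q i ω ^ (1 / q) * (v i ω y : ℝ) =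
      Q i ω ^ (1 / q) * ((w x) ^ (-(1 / q)) * (v i ω x : ℝ) -
        (w y) ^ (-(1 / q)) * (v i ω y : ℝ)) := by ring
  rw [h3, abs_mul, abs_of_nonneg hQq, Real.mul_rpow hQq (abs_nonneg _),
    ← Real.rpow_mul (hQ0 i ω), one_div_mul_cancel hp0.ne', Real.rpow_one, mul_comm]
  rfl

end RL45
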